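import Pool.Agent.P8H43.NT.Emb

/-!
# The injectivity index of normal PEPS grows faster than every iterated exponential

`Tensor`, `Edges`, `Bdry`, `bd`, `weight`, `Gam`, `InjectiveSquare`, `IsNormal`, `injIndex` and `F`
are the definitions of the starting file `ExpLower`.
-/

set_option autoImplicit false

namespace Pool.Agent.Results.MP_a2a8ea_mp.TowerLowerBound

open Pool.Agent.Results.MP_a2a8ea_mp.ExpLower
open Pool.Agent.P8H43.NT (tower exists_tensor)

theorem tower_iter (k i : ℕ) : (fun x => 2 ^ x)^[k] (tower i) = tower (i + k) := by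
  induction k with
  | zero => rfl
  | succ k ih =>
    rw [Function.iterate_succ_apply', ih]
    rfl

theorem iter_mono (k : ℕ) {a b : ℕ} (h : a ≤ b) :
    (fun x => 2 ^ x)^[k] a ≤ (fun x => 2 ^ x)^[k] b := by
  induction k with
  | zero => exact h
  | succ k ih =>
    rw [Function.iterate_succ_apply', Function.iterate_succ_apply']
    exact Nat.pow_le_pow_right (by norm_num) ih

theorem le_tower (i : ℕ) : i + 1 ≤ tower i := by
  induction i with
  | zero => exact le_rfl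
  | succ i ih =>
    calc i + 1 + 1 ≤ tower i + 1 := by omega
      _ ≤ 2 ^ tower i := Nat.lt_two_pow_self

theorem two_mul_le (i : ℕ) (hi : 1 ≤ i) : 2 * i ≤ 2 ^ i := by
  obtain ⟨m, rfl⟩ : ∃ m, i = m + 1 := ⟨i - 1, by omega⟩
  have h : m + 1 ≤ 2 ^ m := Nat.lt_two_pow_self
  rw [pow_succ]
  omega

theorem big (k i : ℕ) (hi : k + 4 ≤ i) : 2 * 3 ^ (i + k + 3) ≤ tower (i + 2) := by
  have h1 : 2 ^ (i + 1) ≤ tower (i + 1) :=
    Nat.pow_le_pow_right (by norm_num) (le_tower i)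
  have h2 := two_mul_le i (by omega)
  have h3 : 2 * i + 2 * k + 7 ≤ 2 ^ (i + 1) := by
    rw [pow_succ]
    omega
  calc 2 * 3 ^ (i + k + 3) ≤ 2 * 4 ^ (i + k + 3) :=
        Nat.mul_le_mul_left _ (Nat.pow_le_pow_left (by norm_num) _)
    _ = 2 ^ (2 * i + 2 * k + 7) := by
        rw [show (4 : ℕ) = 2 ^ 2 by norm_num, ← pow_mul, ← pow_succ']
        congr 1
        ring
    _ ≤ 2 ^ tower (i + 1) := Nat.pow_le_pow_right (by norm_num) (h3.trans h1)
    _ = tower (i + 2) := rfl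

theorem log_spec {D : ℕ} (hD : 2 ≤ D) : 2 * 3 ^ Nat.log 3 (D / 2) ≤ D := by
  have h := Nat.pow_log_le_self 3 (x := D / 2) (by omega)
  omega

theorem lt_F {D : ℕ} (hD : 2 ≤ D) : ((tower (Nat.log 3 (D / 2)) : ℕ) : ℕ∞) < F D := by
  obtain ⟨d, A, -, hA, hi⟩ := exists_tensor _ D (log_spec hD)
  refine lt_of_lt_of_le (Nat.cast_lt.2 hi) ?_
  unfold F
  exact le_iSup_of_le d (le_iSup_of_le A (le_iSup_of_le hA le_rfl))

/-- **A tower lower bound for the injectivity index of normal PEPS.**  Here `tower 0 = 1` and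
`tower (j + 1) = 2 ^ tower j`.  For every bond dimension `D ≥ 2` the sharpest bound `F D` is larger
than the tower of powers of two of height `log_3 (D / 2)` (rounded down); hence `F` grows faster
than every iterated exponential. -/
theorem result :
    (∀ D : ℕ, 2 ≤ D → ((tower (Nat.log 3 (D / 2)) : ℕ) : ℕ∞) < F D) ∧
    (∀ k : ℕ, ∃ D₀ : ℕ, ∀ D : ℕ, D₀ ≤ D → (((fun x => 2 ^ x)^[k] D : ℕ) : ℕ∞) < F D) := by
  refine ⟨fun D hD => lt_F hD, fun k => ?_⟩
  refine ⟨2 * 3 ^ (2 * k + 6), fun D hD => ?_⟩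
  have h3 : 1 ≤ 3 ^ (2 * k + 6) := Nat.one_le_pow _ _ (by norm_num)
  have hD2 : 2 ≤ D := by omega
  refine lt_of_le_of_lt (Nat.cast_le.2 ?_) (lt_F hD2)
  have h4 : 2 * k + 6 ≤ Nat.log 3 (D / 2) :=
    Nat.le_log_of_pow_le (by norm_num) (by omega)
  have h5 : D < 2 * 3 ^ (Nat.log 3 (D / 2) + 1) := by
    have h := Nat.lt_pow_succ_log_self (b := 3) (by norm_num) (D / 2)
    rw [Nat.succ_eq_add_one] at h
    omega
  obtain ⟨i, hi⟩ : ∃ i, Nat.log 3 (D / 2) = i + 2 + k := ⟨Nat.log 3 (D / 2) - k - 2, by omega⟩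
  rw [hi] at h5 ⊢
  rw [← tower_iter]
  refine iter_mono k (h5.le.trans ?_)
  have h6 := big k i (by omega)
  have e : i + 2 + k + 1 = i + k + 3 := by ring
  rw [e]
  exact h6

end Pool.Agent.Results.MP_a2a8ea_mp.TowerLowerBound
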